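import Pool.Agent.KFV.Defs

namespace Pool.Agent.KFV

def cores0 : List Core := [
  ⟨⟨0, []⟩, 11⟩,
  ⟨⟨3, [(0, 1), (0, 2), (1, 2)]⟩, 8⟩,
  ⟨⟨4, [(0, 1), (0, 2), (1, 3), (2, 3)]⟩, 7⟩,
  ⟨⟨5, [(0, 1), (0, 2), (1, 3), (2, 4), (3, 4)]⟩, 6⟩,
  ⟨⟨6, [(0, 1), (0, 2), (1, 3), (2, 4), (3, 5), (4, 5)]⟩, 4⟩,
  ⟨⟨7, [(0, 1), (0, 2), (1, 3), (2, 4), (3, 5), (4, 6), (5, 6)]⟩, 3⟩,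
  ⟨⟨8, [(0, 1), (0, 2), (1, 3), (2, 4), (3, 5), (4, 6), (5, 7), (6, 7)]⟩, 2⟩,
  ⟨⟨9, [(0, 1), (0, 2), (1, 3), (2, 4), (3, 5), (4, 6), (5, 7), (6, 8), (7, 8)]⟩, 1⟩,
  ⟨⟨4, [(0, 2), (0, 3), (1, 2), (1, 3), (2, 3)]⟩, 7⟩,
  ⟨⟨5, [(0, 1), (0, 4), (1, 4), (2, 3), (2, 4), (3, 4)]⟩, 6⟩,
  ⟨⟨5, [(0, 1), (0, 3), (1, 4), (2, 3), (2, 4), (3, 4)]⟩, 5⟩,
  ⟨⟨6, [(0, 1), (0, 2), (1, 5), (2, 5), (3, 4), (3, 5), (4, 5)]⟩, 4⟩,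
  ⟨⟨6, [(0, 1), (0, 2), (1, 4), (2, 5), (3, 4), (3, 5), (4, 5)]⟩, 4⟩,
  ⟨⟨6, [(0, 1), (0, 4), (1, 4), (2, 3), (2, 5), (3, 5), (4, 5)]⟩, 4⟩,
  ⟨⟨7, [(0, 1), (0, 2), (1, 3), (2, 4), (3, 4), (4, 5), (4, 6), (5, 6)]⟩, 2⟩,
  ⟨⟨7, [(0, 1), (0, 2), (1, 4), (2, 3), (3, 5), (3, 6), (4, 5), (5, 6)]⟩, 2⟩,
  ⟨⟨7, [(0, 1), (0, 2), (1, 2), (2, 3), (3, 4), (3, 5), (4, 6), (5, 6)]⟩, 3⟩,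
  ⟨⟨7, [(0, 1), (0, 3), (0, 4), (1, 2), (2, 5), (2, 6), (3, 4), (5, 6)]⟩, 3⟩,
  ⟨⟨8, [(0, 1), (0, 4), (1, 2), (2, 3), (3, 5), (4, 5), (5, 6), (5, 7), (6, 7)]⟩, 1⟩,
  ⟨⟨8, [(0, 1), (0, 2), (1, 3), (2, 5), (3, 4), (4, 6), (5, 6), (5, 7), (6, 7)]⟩, 1⟩]

def cores1 : List Core := [
  ⟨⟨8, [(0, 1), (0, 4), (1, 2), (2, 3), (2, 5), (3, 4), (5, 6), (5, 7), (6, 7)]⟩, 1⟩,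
  ⟨⟨8, [(0, 1), (0, 2), (1, 3), (1, 4), (2, 3), (4, 5), (5, 6), (5, 7), (6, 7)]⟩, 2⟩,
  ⟨⟨8, [(0, 1), (0, 2), (1, 2), (1, 3), (3, 4), (4, 5), (5, 6), (5, 7), (6, 7)]⟩, 2⟩,
  ⟨⟨9, [(0, 1), (0, 2), (0, 3), (1, 4), (2, 3), (4, 5), (5, 6), (6, 7), (6, 8), (7, 8)]⟩, 1⟩,
  ⟨⟨6, [(0, 1), (0, 2), (1, 2), (3, 4), (3, 5), (4, 5)]⟩, 6⟩,
  ⟨⟨7, [(0, 1), (0, 2), (1, 2), (3, 4), (3, 5), (4, 6), (5, 6)]⟩, 4⟩,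
  ⟨⟨8, [(0, 1), (0, 2), (1, 3), (2, 4), (3, 4), (5, 6), (5, 7), (6, 7)]⟩, 2⟩,
  ⟨⟨9, [(0, 1), (0, 5), (1, 2), (2, 3), (3, 4), (4, 5), (6, 7), (6, 8), (7, 8)]⟩, 1⟩,
  ⟨⟨5, [(0, 3), (0, 4), (1, 3), (1, 4), (2, 3), (2, 4)]⟩, 5⟩,
  ⟨⟨6, [(0, 1), (0, 4), (1, 5), (2, 3), (2, 4), (3, 5), (4, 5)]⟩, 4⟩,
  ⟨⟨6, [(0, 1), (0, 4), (1, 5), (2, 4), (2, 5), (3, 4), (3, 5)]⟩, 3⟩,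
  ⟨⟨7, [(0, 1), (0, 6), (1, 2), (1, 4), (1, 5), (2, 3), (3, 4), (5, 6)]⟩, 2⟩,
  ⟨⟨7, [(0, 1), (0, 2), (1, 3), (2, 4), (3, 4), (3, 6), (4, 5), (5, 6)]⟩, 2⟩,
  ⟨⟨7, [(0, 1), (0, 4), (0, 6), (1, 2), (2, 3), (3, 5), (4, 5), (5, 6)]⟩, 2⟩,
  ⟨⟨8, [(0, 1), (0, 2), (1, 3), (1, 5), (1, 7), (2, 4), (3, 4), (5, 6), (6, 7)]⟩, 1⟩,
  ⟨⟨8, [(0, 1), (0, 2), (1, 3), (2, 4), (3, 5), (4, 5), (4, 6), (5, 7), (6, 7)]⟩, 1⟩,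
  ⟨⟨8, [(0, 1), (0, 3), (1, 2), (1, 4), (2, 3), (3, 7), (4, 5), (5, 6), (6, 7)]⟩, 1⟩,
  ⟨⟨8, [(0, 1), (0, 2), (1, 3), (1, 4), (2, 3), (4, 5), (4, 7), (5, 6), (6, 7)]⟩, 1⟩,
  ⟨⟨8, [(0, 1), (0, 2), (1, 3), (2, 3), (4, 5), (4, 6), (5, 7), (6, 7)]⟩, 2⟩,
  ⟨⟨9, [(0, 1), (0, 2), (1, 4), (2, 3), (3, 4), (5, 6), (5, 7), (6, 8), (7, 8)]⟩, 1⟩]

def cores2 : List Core := [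
  ⟨⟨7, [(0, 1), (0, 5), (1, 2), (2, 3), (2, 6), (3, 4), (4, 5), (5, 6)]⟩, 2⟩,
  ⟨⟨8, [(0, 1), (0, 4), (1, 2), (2, 3), (2, 6), (3, 4), (3, 5), (5, 7), (6, 7)]⟩, 1⟩,
  ⟨⟨8, [(0, 1), (0, 4), (1, 2), (2, 3), (3, 5), (3, 7), (4, 5), (4, 6), (6, 7)]⟩, 1⟩,
  ⟨⟨8, [(0, 1), (0, 2), (1, 3), (1, 7), (2, 5), (3, 4), (4, 5), (5, 6), (6, 7)]⟩, 1⟩,
  ⟨⟨4, [(0, 1), (0, 2), (0, 3), (1, 2), (1, 3), (2, 3)]⟩, 7⟩,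
  ⟨⟨5, [(0, 1), (0, 2), (1, 3), (1, 4), (2, 3), (2, 4), (3, 4)]⟩, 5⟩,
  ⟨⟨5, [(0, 2), (0, 4), (1, 3), (1, 4), (2, 3), (2, 4), (3, 4)]⟩, 5⟩,
  ⟨⟨6, [(0, 1), (0, 5), (1, 5), (2, 3), (2, 4), (3, 4), (3, 5), (4, 5)]⟩, 4⟩,
  ⟨⟨6, [(0, 1), (0, 2), (1, 3), (2, 4), (2, 5), (3, 4), (3, 5), (4, 5)]⟩, 3⟩,
  ⟨⟨6, [(0, 1), (0, 3), (1, 5), (2, 4), (2, 5), (3, 4), (3, 5), (4, 5)]⟩, 3⟩,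
  ⟨⟨7, [(0, 1), (0, 2), (1, 3), (1, 4), (1, 5), (2, 3), (4, 5), (4, 6), (5, 6)]⟩, 2⟩,
  ⟨⟨7, [(0, 1), (0, 2), (1, 3), (2, 4), (3, 5), (3, 6), (4, 5), (4, 6), (5, 6)]⟩, 2⟩,
  ⟨⟨7, [(0, 1), (0, 2), (1, 5), (2, 3), (2, 4), (3, 4), (3, 5), (3, 6), (4, 6)]⟩, 2⟩,
  ⟨⟨7, [(0, 1), (0, 2), (1, 2), (1, 3), (3, 4), (3, 5), (4, 5), (4, 6), (5, 6)]⟩, 2⟩,
  ⟨⟨8, [(0, 4), (0, 5), (0, 7), (1, 3), (1, 6), (2, 3), (2, 4), (2, 6), (4, 5), (5, 7)]⟩, 1⟩,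
  ⟨⟨8, [(0, 1), (0, 2), (1, 2), (1, 3), (3, 4), (4, 5), (4, 6), (5, 6), (5, 7), (6, 7)]⟩, 1⟩,
  ⟨⟨5, [(0, 3), (0, 4), (1, 3), (1, 4), (2, 3), (2, 4), (3, 4)]⟩, 5⟩,
  ⟨⟨6, [(0, 1), (0, 5), (1, 5), (2, 4), (2, 5), (3, 4), (3, 5), (4, 5)]⟩, 4⟩,
  ⟨⟨6, [(0, 1), (0, 4), (1, 5), (2, 4), (2, 5), (3, 4), (3, 5), (4, 5)]⟩, 3⟩,
  ⟨⟨7, [(0, 1), (0, 2), (1, 3), (2, 3), (2, 4), (2, 5), (2, 6), (4, 5), (4, 6)]⟩, 2⟩]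

def cores3 : List Core := [
  ⟨⟨7, [(0, 1), (0, 5), (1, 2), (2, 3), (2, 4), (2, 6), (3, 4), (4, 5), (4, 6)]⟩, 2⟩,
  ⟨⟨7, [(0, 1), (0, 2), (0, 3), (0, 4), (1, 2), (1, 5), (1, 6), (3, 4), (5, 6)]⟩, 2⟩,
  ⟨⟨7, [(0, 1), (0, 6), (1, 2), (1, 3), (1, 4), (1, 5), (2, 3), (4, 5), (5, 6)]⟩, 2⟩,
  ⟨⟨7, [(0, 1), (0, 2), (1, 2), (2, 3), (2, 4), (2, 5), (2, 6), (3, 4), (5, 6)]⟩, 2⟩,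
  ⟨⟨8, [(0, 1), (0, 4), (1, 2), (1, 3), (1, 5), (1, 6), (1, 7), (2, 3), (4, 5), (6, 7)]⟩, 1⟩,
  ⟨⟨6, [(0, 2), (0, 3), (1, 4), (1, 5), (2, 3), (2, 4), (3, 5), (4, 5)]⟩, 3⟩,
  ⟨⟨6, [(0, 2), (0, 3), (1, 2), (1, 4), (2, 5), (3, 4), (3, 5), (4, 5)]⟩, 3⟩,
  ⟨⟨6, [(0, 3), (0, 4), (1, 3), (1, 5), (2, 4), (2, 5), (3, 5), (4, 5)]⟩, 3⟩,
  ⟨⟨6, [(0, 3), (0, 5), (1, 3), (1, 5), (2, 4), (2, 5), (3, 4), (4, 5)]⟩, 3⟩,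
  ⟨⟨7, [(0, 1), (0, 4), (0, 5), (1, 2), (1, 3), (1, 6), (2, 3), (4, 5), (5, 6)]⟩, 2⟩,
  ⟨⟨7, [(0, 1), (0, 2), (1, 3), (2, 3), (2, 5), (3, 4), (4, 5), (4, 6), (5, 6)]⟩, 1⟩,
  ⟨⟨7, [(0, 1), (0, 3), (1, 2), (2, 4), (2, 6), (3, 4), (3, 5), (4, 5), (5, 6)]⟩, 1⟩,
  ⟨⟨7, [(0, 1), (0, 3), (1, 2), (1, 6), (2, 3), (2, 4), (2, 5), (4, 5), (5, 6)]⟩, 1⟩,
  ⟨⟨7, [(0, 1), (0, 2), (1, 4), (1, 6), (2, 3), (3, 4), (3, 5), (3, 6), (4, 5)]⟩, 1⟩,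
  ⟨⟨7, [(0, 1), (0, 2), (0, 3), (0, 4), (1, 2), (3, 4), (3, 6), (4, 5), (5, 6)]⟩, 2⟩,
  ⟨⟨7, [(0, 1), (0, 2), (0, 3), (1, 2), (1, 6), (2, 4), (2, 5), (3, 4), (5, 6)]⟩, 1⟩,
  ⟨⟨7, [(0, 1), (0, 2), (1, 3), (1, 4), (1, 6), (2, 3), (3, 5), (3, 6), (4, 5)]⟩, 1⟩,
  ⟨⟨7, [(0, 1), (0, 4), (1, 2), (1, 3), (1, 5), (1, 6), (2, 3), (4, 5), (4, 6)]⟩, 2⟩,
  ⟨⟨7, [(0, 1), (0, 2), (0, 3), (1, 4), (1, 6), (2, 3), (2, 5), (4, 5), (4, 6)]⟩, 2⟩,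
  ⟨⟨7, [(0, 1), (0, 5), (1, 2), (1, 3), (2, 3), (2, 4), (3, 6), (4, 5), (5, 6)]⟩, 1⟩]

def cores4 : List Core := [
  ⟨⟨7, [(0, 1), (0, 2), (0, 3), (0, 6), (1, 5), (2, 3), (2, 4), (4, 5), (5, 6)]⟩, 1⟩,
  ⟨⟨7, [(0, 1), (0, 2), (0, 4), (1, 2), (1, 3), (3, 5), (3, 6), (4, 5), (4, 6)]⟩, 1⟩,
  ⟨⟨7, [(0, 1), (0, 2), (0, 4), (0, 6), (1, 2), (2, 3), (3, 5), (4, 5), (4, 6)]⟩, 2⟩,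
  ⟨⟨7, [(0, 1), (0, 4), (0, 5), (0, 6), (1, 2), (1, 3), (2, 3), (4, 5), (5, 6)]⟩, 2⟩,
  ⟨⟨8, [(0, 1), (0, 2), (0, 5), (1, 2), (1, 3), (1, 4), (3, 4), (5, 6), (5, 7), (6, 7)]⟩, 1⟩,
  ⟨⟨8, [(0, 1), (0, 2), (0, 3), (1, 2), (3, 4), (3, 5), (3, 6), (3, 7), (4, 5), (6, 7)]⟩, 1⟩,
  ⟨⟨8, [(0, 1), (0, 6), (1, 3), (2, 4), (2, 5), (2, 7), (3, 4), (3, 6), (4, 5), (4, 7)]⟩, 1⟩,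
  ⟨⟨8, [(0, 1), (0, 2), (1, 2), (1, 3), (3, 4), (4, 5), (4, 6), (4, 7), (5, 6), (5, 7)]⟩, 1⟩,
  ⟨⟨7, [(0, 1), (0, 2), (1, 2), (3, 5), (3, 6), (4, 5), (4, 6), (5, 6)]⟩, 4⟩,
  ⟨⟨8, [(0, 1), (0, 2), (1, 2), (3, 4), (3, 5), (4, 5), (5, 6), (5, 7), (6, 7)]⟩, 2⟩,
  ⟨⟨8, [(0, 1), (0, 2), (1, 2), (3, 4), (3, 5), (3, 6), (4, 5), (4, 7), (6, 7)]⟩, 2⟩,
  ⟨⟨9, [(0, 1), (0, 2), (1, 2), (2, 3), (2, 4), (3, 5), (4, 5), (6, 7), (6, 8), (7, 8)]⟩, 1⟩,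
  ⟨⟨9, [(0, 1), (0, 2), (1, 2), (1, 3), (3, 4), (3, 5), (4, 5), (6, 7), (6, 8), (7, 8)]⟩, 1⟩,
  ⟨⟨9, [(0, 1), (0, 2), (1, 2), (3, 4), (3, 5), (4, 5), (6, 7), (6, 8), (7, 8)]⟩, 2⟩,
  ⟨⟨8, [(0, 1), (0, 3), (1, 2), (2, 3), (4, 5), (4, 6), (5, 6), (5, 7), (6, 7)]⟩, 2⟩,
  ⟨⟨9, [(0, 1), (0, 3), (1, 2), (2, 3), (4, 5), (4, 6), (5, 6), (6, 7), (6, 8), (7, 8)]⟩, 1⟩,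
  ⟨⟨8, [(0, 1), (0, 2), (1, 2), (3, 4), (3, 5), (4, 6), (4, 7), (5, 6), (5, 7)]⟩, 2⟩,
  ⟨⟨6, [(0, 2), (0, 3), (1, 4), (1, 5), (2, 4), (2, 5), (3, 4), (3, 5)]⟩, 3⟩,
  ⟨⟨7, [(0, 1), (0, 2), (1, 2), (1, 3), (1, 5), (3, 4), (3, 6), (4, 5), (5, 6)]⟩, 2⟩,
  ⟨⟨7, [(0, 1), (0, 3), (0, 6), (1, 2), (1, 5), (2, 4), (3, 4), (3, 5), (5, 6)]⟩, 1⟩]

def cores5 : List Core := [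
  ⟨⟨7, [(0, 1), (0, 2), (0, 4), (1, 3), (2, 3), (2, 5), (2, 6), (4, 5), (4, 6)]⟩, 1⟩,
  ⟨⟨6, [(0, 4), (0, 5), (1, 4), (1, 5), (2, 4), (2, 5), (3, 4), (3, 5)]⟩, 3⟩,
  ⟨⟨7, [(0, 1), (0, 3), (1, 2), (1, 5), (1, 6), (2, 4), (3, 4), (3, 5), (3, 6)]⟩, 1⟩,
  ⟨⟨7, [(0, 1), (0, 5), (1, 2), (1, 3), (2, 4), (3, 4), (3, 5), (4, 6), (5, 6)]⟩, 1⟩,
  ⟨⟨7, [(0, 1), (0, 2), (1, 4), (1, 6), (2, 3), (2, 5), (3, 4), (4, 5), (5, 6)]⟩, 1⟩,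
  ⟨⟨7, [(0, 1), (0, 2), (1, 3), (1, 5), (2, 3), (2, 4), (2, 6), (4, 5), (5, 6)]⟩, 1⟩,
  ⟨⟨5, [(0, 3), (0, 4), (1, 2), (1, 3), (1, 4), (2, 3), (2, 4), (3, 4)]⟩, 5⟩,
  ⟨⟨6, [(0, 1), (0, 5), (1, 5), (2, 3), (2, 4), (2, 5), (3, 4), (3, 5), (4, 5)]⟩, 3⟩,
  ⟨⟨6, [(0, 1), (0, 4), (1, 5), (2, 3), (2, 4), (2, 5), (3, 4), (3, 5), (4, 5)]⟩, 3⟩,
  ⟨⟨7, [(0, 1), (0, 3), (1, 2), (2, 3), (2, 4), (2, 5), (2, 6), (4, 5), (4, 6), (5, 6)]⟩, 2⟩,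
  ⟨⟨7, [(0, 1), (0, 4), (1, 2), (2, 3), (3, 4), (3, 5), (3, 6), (4, 5), (4, 6), (5, 6)]⟩, 1⟩,
  ⟨⟨5, [(0, 1), (0, 2), (0, 4), (1, 3), (1, 4), (2, 3), (2, 4), (3, 4)]⟩, 4⟩,
  ⟨⟨6, [(0, 1), (0, 5), (1, 2), (1, 5), (2, 3), (2, 4), (3, 4), (3, 5), (4, 5)]⟩, 2⟩,
  ⟨⟨6, [(0, 1), (0, 5), (1, 2), (1, 3), (2, 4), (2, 5), (3, 4), (3, 5), (4, 5)]⟩, 2⟩,
  ⟨⟨7, [(0, 1), (0, 2), (1, 2), (1, 3), (1, 6), (3, 4), (3, 5), (4, 5), (4, 6), (5, 6)]⟩, 1⟩,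
  ⟨⟨6, [(0, 4), (0, 5), (1, 4), (1, 5), (2, 3), (2, 4), (2, 5), (3, 4), (3, 5)]⟩, 2⟩,
  ⟨⟨6, [(0, 2), (0, 4), (1, 4), (1, 5), (2, 3), (2, 5), (3, 4), (3, 5), (4, 5)]⟩, 2⟩,
  ⟨⟨7, [(0, 1), (0, 2), (1, 2), (1, 3), (1, 4), (1, 6), (3, 4), (3, 5), (4, 5), (5, 6)]⟩, 1⟩,
  ⟨⟨6, [(0, 2), (0, 3), (1, 4), (1, 5), (2, 4), (2, 5), (3, 4), (3, 5), (4, 5)]⟩, 2⟩,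
  ⟨⟨7, [(0, 1), (0, 2), (1, 2), (2, 3), (2, 4), (2, 5), (3, 4), (3, 5), (4, 6), (5, 6)]⟩, 1⟩]

def cores6 : List Core := [
  ⟨⟨6, [(0, 2), (0, 4), (1, 3), (1, 5), (2, 4), (2, 5), (3, 4), (3, 5), (4, 5)]⟩, 2⟩,
  ⟨⟨6, [(0, 2), (0, 5), (1, 3), (1, 5), (2, 4), (2, 5), (3, 4), (3, 5), (4, 5)]⟩, 2⟩,
  ⟨⟨7, [(0, 1), (0, 2), (1, 2), (2, 3), (2, 4), (3, 4), (3, 5), (4, 5), (4, 6), (5, 6)]⟩, 1⟩,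
  ⟨⟨7, [(0, 1), (0, 5), (1, 2), (1, 3), (1, 4), (2, 3), (2, 4), (2, 6), (3, 5), (4, 6)]⟩, 1⟩,
  ⟨⟨7, [(0, 1), (0, 2), (1, 3), (2, 3), (2, 4), (2, 5), (2, 6), (3, 4), (4, 5), (5, 6)]⟩, 1⟩,
  ⟨⟨6, [(0, 3), (0, 4), (1, 3), (1, 5), (2, 4), (2, 5), (3, 4), (3, 5), (4, 5)]⟩, 2⟩,
  ⟨⟨6, [(0, 3), (0, 5), (1, 4), (1, 5), (2, 4), (2, 5), (3, 4), (3, 5), (4, 5)]⟩, 3⟩,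
  ⟨⟨7, [(0, 1), (0, 2), (1, 2), (1, 3), (1, 4), (1, 6), (3, 4), (3, 5), (4, 5), (4, 6)]⟩, 1⟩,
  ⟨⟨7, [(0, 1), (0, 3), (1, 2), (1, 4), (1, 6), (2, 3), (2, 4), (2, 5), (4, 5), (4, 6)]⟩, 1⟩,
  ⟨⟨7, [(0, 1), (0, 3), (1, 2), (2, 3), (2, 4), (2, 5), (2, 6), (3, 4), (3, 6), (4, 5)]⟩, 1⟩,
  ⟨⟨7, [(0, 1), (0, 2), (1, 2), (1, 3), (1, 4), (1, 5), (1, 6), (3, 4), (3, 5), (5, 6)]⟩, 1⟩,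
  ⟨⟨7, [(0, 1), (0, 2), (0, 3), (1, 2), (1, 3), (1, 6), (3, 4), (3, 5), (4, 5), (5, 6)]⟩, 1⟩,
  ⟨⟨7, [(0, 1), (0, 2), (1, 2), (1, 3), (1, 4), (1, 5), (2, 3), (4, 5), (4, 6), (5, 6)]⟩, 1⟩,
  ⟨⟨7, [(0, 1), (0, 2), (1, 2), (1, 3), (1, 4), (3, 4), (3, 5), (3, 6), (4, 5), (4, 6)]⟩, 1⟩,
  ⟨⟨6, [(0, 1), (0, 2), (1, 3), (1, 5), (2, 4), (2, 5), (3, 4), (3, 5), (4, 5)]⟩, 2⟩,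
  ⟨⟨7, [(0, 1), (0, 2), (0, 3), (1, 2), (1, 5), (2, 3), (3, 4), (4, 5), (4, 6), (5, 6)]⟩, 1⟩,
  ⟨⟨7, [(0, 1), (0, 2), (0, 3), (0, 4), (1, 2), (2, 6), (3, 4), (3, 5), (4, 5), (5, 6)]⟩, 1⟩,
  ⟨⟨7, [(0, 1), (0, 5), (1, 2), (1, 3), (2, 3), (2, 4), (2, 6), (3, 4), (3, 6), (4, 5)]⟩, 1⟩,
  ⟨⟨7, [(0, 1), (0, 2), (0, 3), (0, 4), (0, 5), (1, 2), (1, 6), (3, 4), (3, 5), (4, 6)]⟩, 1⟩,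
  ⟨⟨7, [(0, 1), (0, 3), (1, 2), (1, 4), (1, 5), (1, 6), (2, 3), (2, 4), (4, 5), (4, 6)]⟩, 1⟩]

def cores7 : List Core := [
  ⟨⟨7, [(0, 1), (0, 2), (0, 3), (1, 2), (2, 3), (3, 4), (3, 5), (4, 5), (4, 6), (5, 6)]⟩, 1⟩,
  ⟨⟨7, [(0, 1), (0, 2), (1, 2), (1, 3), (3, 4), (3, 5), (3, 6), (4, 5), (4, 6), (5, 6)]⟩, 2⟩,
  ⟨⟨6, [(0, 4), (0, 5), (1, 4), (1, 5), (2, 4), (2, 5), (3, 4), (3, 5), (4, 5)]⟩, 3⟩,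
  ⟨⟨7, [(0, 1), (0, 2), (1, 2), (2, 3), (2, 4), (2, 5), (2, 6), (3, 4), (3, 5), (3, 6)]⟩, 1⟩,
  ⟨⟨7, [(0, 1), (0, 4), (1, 2), (1, 3), (1, 5), (1, 6), (2, 3), (3, 4), (3, 5), (3, 6)]⟩, 1⟩,
  ⟨⟨7, [(0, 1), (0, 2), (1, 2), (1, 3), (1, 4), (1, 5), (1, 6), (2, 3), (4, 5), (5, 6)]⟩, 1⟩,
  ⟨⟨7, [(0, 1), (0, 2), (1, 2), (1, 3), (1, 4), (1, 5), (2, 3), (2, 6), (4, 5), (5, 6)]⟩, 1⟩,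
  ⟨⟨6, [(0, 1), (0, 2), (0, 3), (1, 2), (1, 4), (2, 5), (3, 4), (3, 5), (4, 5)]⟩, 2⟩,
  ⟨⟨7, [(0, 1), (0, 2), (0, 3), (1, 2), (2, 4), (3, 4), (3, 5), (4, 5), (4, 6), (5, 6)]⟩, 1⟩,
  ⟨⟨7, [(0, 1), (0, 2), (0, 4), (1, 2), (1, 3), (3, 4), (3, 5), (3, 6), (4, 5), (4, 6)]⟩, 1⟩,
  ⟨⟨7, [(0, 1), (0, 4), (1, 2), (1, 3), (1, 5), (1, 6), (2, 3), (3, 4), (4, 5), (4, 6)]⟩, 1⟩,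
  ⟨⟨8, [(0, 1), (0, 2), (1, 2), (1, 3), (2, 3), (4, 5), (4, 6), (5, 6), (5, 7), (6, 7)]⟩, 1⟩,
  ⟨⟨7, [(0, 1), (0, 2), (1, 2), (3, 4), (3, 5), (3, 6), (4, 5), (4, 6), (5, 6)]⟩, 3⟩,
  ⟨⟨8, [(0, 1), (0, 2), (1, 2), (3, 4), (3, 5), (3, 7), (4, 5), (4, 6), (5, 6), (6, 7)]⟩, 1⟩,
  ⟨⟨8, [(0, 1), (0, 2), (1, 2), (3, 4), (3, 5), (3, 6), (3, 7), (4, 5), (4, 6), (6, 7)]⟩, 1⟩,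
  ⟨⟨8, [(0, 1), (0, 2), (1, 2), (3, 4), (3, 5), (4, 5), (4, 6), (4, 7), (5, 6), (5, 7)]⟩, 1⟩,
  ⟨⟨8, [(0, 1), (0, 2), (1, 3), (2, 3), (4, 5), (4, 6), (4, 7), (5, 6), (5, 7), (6, 7)]⟩, 2⟩,
  ⟨⟨6, [(0, 1), (0, 2), (0, 3), (1, 4), (1, 5), (2, 4), (2, 5), (3, 4), (3, 5)]⟩, 1⟩,
  ⟨⟨7, [(0, 1), (0, 2), (1, 3), (1, 4), (1, 5), (1, 6), (2, 3), (2, 4), (2, 5), (2, 6)]⟩, 1⟩,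
  ⟨⟨5, [(0, 2), (0, 3), (0, 4), (1, 2), (1, 3), (1, 4), (2, 3), (2, 4), (3, 4)]⟩, 4⟩]

def cores8 : List Core := [
  ⟨⟨6, [(0, 1), (0, 3), (1, 4), (1, 5), (2, 3), (2, 4), (2, 5), (3, 4), (3, 5), (4, 5)]⟩, 1⟩,
  ⟨⟨6, [(0, 1), (0, 5), (1, 4), (1, 5), (2, 3), (2, 4), (2, 5), (3, 4), (3, 5), (4, 5)]⟩, 2⟩,
  ⟨⟨7, [(0, 1), (0, 2), (0, 3), (0, 4), (1, 2), (3, 4), (3, 5), (3, 6), (4, 5), (4, 6), (5, 6)]⟩, 1⟩,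
  ⟨⟨6, [(0, 2), (0, 3), (1, 4), (1, 5), (2, 3), (2, 4), (2, 5), (3, 4), (3, 5), (4, 5)]⟩, 2⟩,
  ⟨⟨6, [(0, 3), (0, 5), (1, 4), (1, 5), (2, 3), (2, 4), (2, 5), (3, 4), (3, 5), (4, 5)]⟩, 2⟩,
  ⟨⟨7, [(0, 1), (0, 2), (0, 3), (0, 4), (0, 5), (1, 2), (3, 4), (3, 5), (4, 5), (4, 6), (5, 6)]⟩, 1⟩,
  ⟨⟨6, [(0, 4), (0, 5), (1, 4), (1, 5), (2, 3), (2, 4), (2, 5), (3, 4), (3, 5), (4, 5)]⟩, 2⟩,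
  ⟨⟨7, [(0, 1), (0, 2), (1, 2), (2, 3), (2, 4), (2, 5), (2, 6), (3, 4), (3, 5), (3, 6), (4, 5)]⟩, 1⟩,
  ⟨⟨6, [(0, 3), (0, 4), (1, 2), (1, 3), (1, 5), (2, 4), (2, 5), (3, 4), (3, 5), (4, 5)]⟩, 1⟩,
  ⟨⟨6, [(0, 3), (0, 4), (1, 3), (1, 4), (1, 5), (2, 3), (2, 4), (2, 5), (3, 5), (4, 5)]⟩, 1⟩,
  ⟨⟨6, [(0, 4), (0, 5), (1, 2), (1, 3), (1, 5), (2, 4), (2, 5), (3, 4), (3, 5), (4, 5)]⟩, 2⟩,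
  ⟨⟨7, [(0, 1), (0, 2), (1, 2), (1, 3), (1, 4), (1, 6), (3, 4), (3, 5), (4, 5), (4, 6), (5, 6)]⟩, 1⟩,
  ⟨⟨7, [(0, 1), (0, 2), (1, 2), (1, 3), (1, 4), (1, 5), (1, 6), (3, 4), (3, 6), (4, 5), (5, 6)]⟩, 1⟩,
  ⟨⟨6, [(0, 1), (0, 4), (0, 5), (1, 4), (1, 5), (2, 3), (2, 4), (2, 5), (3, 4), (3, 5)]⟩, 2⟩,
  ⟨⟨6, [(0, 1), (0, 2), (0, 4), (1, 3), (1, 5), (2, 4), (2, 5), (3, 4), (3, 5), (4, 5)]⟩, 1⟩,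
  ⟨⟨6, [(0, 1), (0, 2), (0, 3), (1, 4), (1, 5), (2, 4), (2, 5), (3, 4), (3, 5), (4, 5)]⟩, 1⟩,
  ⟨⟨6, [(0, 1), (0, 2), (0, 5), (1, 3), (1, 5), (2, 4), (2, 5), (3, 4), (3, 5), (4, 5)]⟩, 1⟩,
  ⟨⟨7, [(0, 1), (0, 2), (1, 2), (1, 3), (1, 4), (1, 5), (1, 6), (2, 3), (2, 4), (2, 5), (2, 6)]⟩, 1⟩,
  ⟨⟨8, [(0, 1), (0, 2), (0, 3), (1, 2), (1, 3), (2, 3), (3, 4), (4, 5), (5, 6), (5, 7), (6, 7)]⟩, 1⟩,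
  ⟨⟨8, [(0, 1), (0, 2), (1, 2), (3, 4), (3, 5), (3, 6), (4, 5), (4, 6), (4, 7), (5, 6), (6, 7)]⟩, 1⟩]

def cores9 : List Core := [
  ⟨⟨8, [(0, 1), (0, 2), (1, 2), (3, 4), (3, 5), (3, 6), (4, 5), (4, 7), (5, 6), (5, 7), (6, 7)]⟩, 1⟩,
  ⟨⟨5, [(0, 1), (0, 2), (0, 3), (0, 4), (1, 2), (1, 3), (1, 4), (2, 3), (2, 4), (3, 4)]⟩, 4⟩,
  ⟨⟨6, [(0, 1), (0, 2), (1, 3), (1, 4), (1, 5), (2, 3), (2, 4), (2, 5), (3, 4), (3, 5), (4, 5)]⟩, 1⟩,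
  ⟨⟨6, [(0, 2), (0, 5), (1, 3), (1, 4), (1, 5), (2, 3), (2, 4), (2, 5), (3, 4), (3, 5), (4, 5)]⟩, 1⟩,
  ⟨⟨6, [(0, 4), (0, 5), (1, 3), (1, 4), (1, 5), (2, 3), (2, 4), (2, 5), (3, 4), (3, 5), (4, 5)]⟩, 1⟩,
  ⟨⟨6, [(0, 1), (0, 2), (0, 3), (1, 4), (1, 5), (2, 3), (2, 4), (2, 5), (3, 4), (3, 5), (4, 5)]⟩, 1⟩,
  ⟨⟨6, [(0, 1), (0, 3), (0, 5), (1, 4), (1, 5), (2, 3), (2, 4), (2, 5), (3, 4), (3, 5), (4, 5)]⟩, 1⟩,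
  ⟨⟨6, [(0, 1), (0, 4), (0, 5), (1, 4), (1, 5), (2, 3), (2, 4), (2, 5), (3, 4), (3, 5), (4, 5)]⟩, 2⟩,
  ⟨⟨6, [(0, 2), (0, 3), (0, 4), (1, 2), (1, 3), (1, 5), (2, 4), (2, 5), (3, 4), (3, 5), (4, 5)]⟩, 1⟩,
  ⟨⟨6, [(0, 3), (0, 4), (0, 5), (1, 3), (1, 4), (1, 5), (2, 3), (2, 4), (2, 5), (3, 5), (4, 5)]⟩, 1⟩,
  ⟨⟨6, [(0, 4), (0, 5), (1, 2), (1, 3), (1, 4), (1, 5), (2, 3), (2, 4), (2, 5), (3, 4), (3, 5), (4, 5)]⟩, 1⟩,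
  ⟨⟨6, [(0, 1), (0, 2), (0, 5), (1, 3), (1, 4), (1, 5), (2, 3), (2, 4), (2, 5), (3, 4), (3, 5), (4, 5)]⟩, 1⟩,
  ⟨⟨6, [(0, 2), (0, 4), (0, 5), (1, 3), (1, 4), (1, 5), (2, 3), (2, 4), (2, 5), (3, 4), (3, 5), (4, 5)]⟩, 1⟩,
  ⟨⟨6, [(0, 3), (0, 4), (0, 5), (1, 3), (1, 4), (1, 5), (2, 3), (2, 4), (2, 5), (3, 4), (3, 5), (4, 5)]⟩, 1⟩,
  ⟨⟨6, [(0, 3), (0, 4), (0, 5), (1, 2), (1, 3), (1, 4), (1, 5), (2, 3), (2, 4), (2, 5), (3, 4), (3, 5), (4, 5)]⟩, 1⟩]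

/-- the exceptional cores -/
def cores : List Core :=
  cores0 ++ cores1 ++ cores2 ++ cores3 ++ cores4 ++ cores5 ++ cores6 ++ cores7 ++ cores8 ++ cores9

def goods0 : List CG := [
  ⟨8, [(0, 1), (0, 2), (0, 3), (0, 5), (1, 2), (3, 4), (3, 6), (3, 7), (4, 5), (6, 7)]⟩,
  ⟨8, [(0, 1), (0, 2), (1, 2), (1, 6), (1, 7), (2, 3), (2, 5), (3, 4), (4, 5), (6, 7)]⟩,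
  ⟨8, [(0, 1), (0, 2), (1, 3), (1, 4), (2, 5), (3, 4), (3, 6), (3, 7), (4, 5), (6, 7)]⟩,
  ⟨8, [(0, 1), (0, 2), (0, 5), (0, 6), (1, 2), (1, 3), (2, 7), (3, 4), (4, 5), (6, 7)]⟩,
  ⟨8, [(0, 1), (0, 2), (1, 3), (2, 3), (2, 4), (2, 5), (4, 5), (4, 7), (5, 6), (6, 7)]⟩,
  ⟨8, [(0, 1), (0, 2), (0, 3), (1, 7), (2, 3), (3, 4), (3, 5), (4, 5), (5, 6), (6, 7)]⟩,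
  ⟨8, [(0, 1), (0, 2), (1, 2), (2, 3), (3, 4), (3, 5), (3, 6), (4, 5), (4, 7), (6, 7)]⟩,
  ⟨8, [(0, 1), (0, 5), (1, 2), (2, 3), (2, 4), (3, 4), (3, 5), (3, 7), (5, 6), (6, 7)]⟩,
  ⟨8, [(0, 1), (0, 2), (1, 2), (1, 4), (1, 7), (2, 3), (2, 6), (3, 5), (4, 5), (6, 7)]⟩,
  ⟨8, [(0, 1), (0, 2), (0, 5), (1, 3), (2, 4), (2, 6), (2, 7), (3, 4), (5, 6), (6, 7)]⟩,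
  ⟨8, [(0, 1), (0, 2), (1, 4), (2, 3), (3, 5), (3, 6), (4, 5), (5, 6), (5, 7), (6, 7)]⟩,
  ⟨8, [(0, 1), (0, 3), (1, 2), (2, 3), (2, 5), (2, 6), (3, 4), (3, 7), (4, 5), (6, 7)]⟩,
  ⟨8, [(0, 1), (0, 2), (1, 6), (2, 3), (2, 4), (3, 4), (3, 5), (4, 5), (5, 7), (6, 7)]⟩,
  ⟨8, [(0, 1), (0, 2), (1, 4), (1, 7), (2, 3), (3, 5), (4, 5), (4, 6), (5, 6), (6, 7)]⟩,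
  ⟨8, [(0, 1), (0, 2), (0, 6), (1, 2), (1, 3), (2, 7), (3, 4), (3, 5), (4, 5), (6, 7)]⟩,
  ⟨8, [(0, 1), (0, 4), (0, 5), (1, 2), (1, 6), (2, 3), (3, 4), (4, 5), (5, 7), (6, 7)]⟩,
  ⟨8, [(0, 1), (0, 3), (1, 2), (1, 4), (2, 3), (2, 5), (3, 4), (5, 6), (5, 7), (6, 7)]⟩,
  ⟨8, [(0, 1), (0, 2), (0, 3), (1, 5), (2, 4), (3, 4), (3, 5), (4, 6), (5, 7), (6, 7)]⟩,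
  ⟨8, [(0, 1), (0, 2), (0, 5), (1, 2), (2, 3), (3, 4), (4, 5), (4, 6), (4, 7), (6, 7)]⟩,
  ⟨8, [(0, 1), (0, 2), (0, 7), (1, 3), (1, 6), (2, 4), (3, 5), (4, 5), (4, 6), (5, 7)]⟩]

def goods1 : List CG := [
  ⟨7, [(0, 1), (0, 2), (1, 2), (1, 5), (1, 6), (2, 3), (2, 4), (3, 4), (4, 5), (4, 6)]⟩,
  ⟨7, [(0, 1), (0, 2), (1, 2), (1, 4), (1, 5), (2, 3), (3, 4), (3, 6), (4, 5), (5, 6)]⟩,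
  ⟨7, [(0, 1), (0, 2), (0, 5), (1, 2), (1, 3), (2, 4), (2, 6), (3, 4), (4, 5), (5, 6)]⟩,
  ⟨7, [(0, 1), (0, 2), (1, 3), (2, 3), (2, 4), (2, 6), (3, 4), (3, 5), (4, 5), (5, 6)]⟩,
  ⟨7, [(0, 1), (0, 2), (0, 3), (1, 2), (1, 5), (2, 3), (2, 6), (3, 4), (4, 5), (4, 6)]⟩,
  ⟨7, [(0, 1), (0, 2), (1, 3), (2, 4), (2, 6), (3, 4), (3, 5), (3, 6), (4, 5), (5, 6)]⟩,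
  ⟨7, [(0, 1), (0, 2), (1, 3), (1, 4), (1, 5), (2, 3), (3, 4), (3, 5), (4, 6), (5, 6)]⟩,
  ⟨8, [(0, 1), (0, 3), (1, 2), (2, 4), (3, 4), (4, 5), (4, 6), (4, 7), (5, 6), (6, 7)]⟩,
  ⟨7, [(0, 1), (0, 2), (1, 2), (1, 3), (1, 6), (2, 4), (2, 5), (3, 4), (4, 5), (5, 6)]⟩,
  ⟨7, [(0, 1), (0, 2), (0, 3), (1, 2), (1, 6), (2, 4), (2, 5), (3, 4), (4, 5), (5, 6)]⟩,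
  ⟨8, [(0, 1), (0, 3), (1, 2), (1, 7), (2, 4), (3, 5), (3, 6), (4, 5), (4, 6), (4, 7)]⟩,
  ⟨8, [(0, 1), (0, 5), (1, 2), (2, 3), (2, 4), (2, 6), (2, 7), (3, 4), (4, 5), (6, 7)]⟩,
  ⟨8, [(0, 1), (0, 2), (1, 3), (2, 3), (3, 4), (3, 5), (3, 7), (4, 5), (5, 6), (6, 7)]⟩,
  ⟨7, [(0, 1), (0, 3), (1, 2), (1, 4), (2, 3), (3, 4), (3, 5), (4, 5), (4, 6), (5, 6)]⟩,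
  ⟨7, [(0, 1), (0, 3), (0, 4), (0, 6), (1, 2), (2, 3), (2, 5), (3, 4), (3, 6), (4, 5)]⟩,
  ⟨7, [(0, 1), (0, 5), (1, 2), (1, 3), (1, 6), (2, 3), (2, 4), (3, 4), (3, 6), (4, 5)]⟩,
  ⟨7, [(0, 1), (0, 2), (1, 3), (1, 4), (2, 3), (2, 6), (3, 4), (3, 5), (4, 5), (5, 6)]⟩,
  ⟨8, [(0, 1), (0, 3), (0, 7), (1, 2), (2, 3), (3, 4), (3, 5), (3, 6), (4, 5), (6, 7)]⟩,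
  ⟨7, [(0, 1), (0, 2), (1, 5), (2, 3), (2, 4), (3, 4), (3, 6), (4, 5), (4, 6), (5, 6)]⟩,
  ⟨8, [(0, 1), (0, 2), (1, 3), (2, 4), (3, 5), (4, 5), (4, 6), (4, 7), (5, 6), (5, 7)]⟩]

def goods2 : List CG := [
  ⟨8, [(0, 1), (0, 5), (0, 7), (1, 2), (2, 3), (2, 6), (3, 4), (4, 5), (4, 6), (6, 7)]⟩,
  ⟨8, [(0, 1), (0, 3), (1, 2), (1, 4), (2, 3), (3, 4), (3, 5), (5, 6), (5, 7), (6, 7)]⟩,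
  ⟨8, [(0, 1), (0, 3), (0, 7), (1, 2), (2, 3), (2, 4), (2, 5), (4, 5), (5, 6), (6, 7)]⟩,
  ⟨8, [(0, 1), (0, 2), (1, 4), (1, 5), (2, 3), (3, 4), (3, 5), (3, 6), (5, 7), (6, 7)]⟩,
  ⟨8, [(0, 1), (0, 2), (1, 2), (1, 3), (1, 5), (3, 4), (3, 7), (4, 5), (4, 6), (6, 7)]⟩,
  ⟨8, [(0, 1), (0, 4), (1, 2), (2, 3), (2, 5), (3, 4), (3, 6), (3, 7), (5, 6), (5, 7)]⟩,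
  ⟨8, [(0, 1), (0, 5), (0, 7), (1, 2), (1, 3), (2, 3), (2, 4), (2, 6), (4, 5), (6, 7)]⟩,
  ⟨8, [(0, 1), (0, 3), (1, 2), (2, 5), (2, 6), (3, 4), (4, 5), (4, 6), (4, 7), (6, 7)]⟩,
  ⟨8, [(0, 1), (0, 2), (1, 3), (1, 4), (2, 3), (2, 5), (4, 5), (4, 6), (5, 7), (6, 7)]⟩,
  ⟨8, [(0, 1), (0, 4), (1, 2), (1, 7), (2, 3), (3, 4), (3, 5), (4, 5), (5, 6), (6, 7)]⟩,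
  ⟨8, [(0, 1), (0, 2), (0, 4), (1, 2), (2, 3), (2, 6), (3, 5), (4, 5), (5, 7), (6, 7)]⟩,
  ⟨8, [(0, 1), (0, 2), (0, 4), (1, 3), (2, 5), (2, 6), (3, 4), (3, 7), (4, 5), (6, 7)]⟩,
  ⟨8, [(0, 1), (0, 2), (1, 3), (2, 3), (3, 4), (3, 6), (4, 5), (4, 7), (5, 6), (6, 7)]⟩,
  ⟨8, [(0, 1), (0, 3), (1, 2), (2, 4), (2, 6), (3, 4), (4, 5), (5, 6), (5, 7), (6, 7)]⟩,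
  ⟨8, [(0, 1), (0, 5), (0, 6), (1, 2), (1, 3), (2, 3), (2, 4), (4, 5), (4, 7), (6, 7)]⟩,
  ⟨8, [(0, 1), (0, 2), (1, 3), (2, 3), (2, 4), (3, 5), (4, 5), (4, 7), (5, 6), (6, 7)]⟩,
  ⟨8, [(0, 1), (0, 2), (0, 4), (1, 2), (1, 3), (3, 4), (4, 5), (5, 6), (5, 7), (6, 7)]⟩,
  ⟨8, [(0, 1), (0, 4), (1, 2), (1, 6), (2, 3), (3, 5), (3, 7), (4, 5), (4, 6), (5, 7)]⟩,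
  ⟨8, [(0, 1), (0, 2), (0, 4), (1, 2), (2, 3), (3, 5), (3, 7), (4, 5), (5, 6), (6, 7)]⟩,
  ⟨8, [(0, 1), (0, 4), (0, 5), (1, 2), (1, 3), (2, 3), (3, 6), (4, 5), (4, 7), (6, 7)]⟩]

def goods3 : List CG := [
  ⟨8, [(0, 1), (0, 2), (0, 3), (0, 6), (0, 7), (1, 5), (2, 4), (3, 4), (4, 5), (6, 7)]⟩,
  ⟨8, [(0, 1), (0, 3), (0, 4), (1, 2), (2, 3), (2, 5), (2, 6), (4, 5), (4, 7), (6, 7)]⟩,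
  ⟨8, [(0, 2), (0, 5), (0, 6), (1, 4), (1, 5), (1, 7), (2, 3), (2, 6), (3, 4), (4, 7)]⟩,
  ⟨8, [(0, 1), (0, 2), (0, 7), (1, 3), (1, 6), (2, 4), (3, 5), (4, 5), (4, 7), (5, 6)]⟩,
  ⟨8, [(0, 1), (0, 4), (0, 6), (1, 2), (1, 5), (2, 3), (3, 4), (4, 5), (5, 7), (6, 7)]⟩,
  ⟨8, [(0, 1), (0, 3), (1, 2), (2, 4), (3, 5), (3, 6), (4, 5), (4, 6), (5, 7), (6, 7)]⟩,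
  ⟨8, [(0, 1), (0, 2), (1, 3), (2, 4), (2, 5), (2, 6), (3, 4), (3, 5), (3, 7), (6, 7)]⟩,
  ⟨8, [(0, 1), (0, 3), (0, 6), (0, 7), (1, 2), (2, 3), (2, 4), (2, 5), (4, 5), (6, 7)]⟩,
  ⟨8, [(0, 1), (0, 2), (1, 3), (1, 5), (1, 6), (2, 4), (3, 4), (5, 6), (5, 7), (6, 7)]⟩,
  ⟨8, [(0, 1), (0, 2), (1, 5), (2, 3), (3, 4), (3, 6), (3, 7), (4, 5), (5, 6), (5, 7)]⟩,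
  ⟨10, [(0, 1), (0, 2), (1, 3), (2, 3), (4, 5), (4, 6), (5, 6), (7, 8), (7, 9), (8, 9)]⟩,
  ⟨8, [(0, 1), (0, 3), (1, 2), (2, 3), (2, 4), (2, 5), (2, 7), (4, 6), (5, 6), (6, 7)]⟩,
  ⟨8, [(0, 1), (0, 2), (0, 3), (1, 5), (2, 3), (3, 4), (4, 5), (4, 6), (4, 7), (6, 7)]⟩,
  ⟨8, [(0, 1), (0, 2), (0, 5), (1, 3), (2, 4), (3, 4), (4, 5), (5, 6), (5, 7), (6, 7)]⟩,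
  ⟨8, [(0, 1), (0, 4), (1, 2), (1, 5), (2, 3), (2, 6), (2, 7), (3, 4), (4, 5), (6, 7)]⟩,
  ⟨8, [(0, 1), (0, 2), (1, 3), (2, 3), (2, 4), (3, 5), (3, 6), (4, 5), (5, 7), (6, 7)]⟩,
  ⟨8, [(0, 1), (0, 2), (1, 3), (2, 3), (2, 4), (2, 5), (4, 6), (4, 7), (5, 6), (6, 7)]⟩,
  ⟨8, [(0, 1), (0, 2), (0, 5), (1, 3), (1, 6), (2, 4), (3, 4), (4, 5), (5, 7), (6, 7)]⟩,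
  ⟨8, [(0, 1), (0, 2), (0, 4), (0, 6), (1, 3), (2, 3), (3, 5), (4, 5), (4, 7), (6, 7)]⟩,
  ⟨9, [(0, 1), (0, 2), (0, 3), (1, 6), (1, 8), (2, 4), (3, 5), (4, 5), (6, 7), (7, 8)]⟩]

def goods4 : List CG := [
  ⟨7, [(0, 1), (0, 3), (1, 2), (1, 4), (1, 5), (2, 3), (2, 6), (3, 4), (3, 5), (4, 6)]⟩,
  ⟨9, [(0, 1), (0, 2), (1, 4), (2, 3), (3, 5), (4, 5), (5, 6), (5, 8), (6, 7), (7, 8)]⟩,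
  ⟨7, [(0, 1), (0, 2), (0, 3), (1, 5), (1, 6), (2, 3), (2, 4), (3, 4), (4, 5), (4, 6)]⟩,
  ⟨9, [(0, 1), (0, 3), (1, 2), (2, 4), (3, 4), (3, 5), (3, 6), (5, 7), (6, 8), (7, 8)]⟩,
  ⟨7, [(0, 1), (0, 3), (0, 4), (1, 2), (2, 3), (2, 4), (2, 6), (3, 5), (4, 5), (5, 6)]⟩,
  ⟨7, [(0, 1), (0, 3), (1, 2), (1, 4), (2, 3), (3, 4), (3, 5), (3, 6), (4, 5), (4, 6)]⟩,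
  ⟨7, [(0, 1), (0, 2), (1, 3), (1, 4), (1, 5), (2, 3), (2, 4), (3, 6), (4, 5), (4, 6)]⟩,
  ⟨10, [(0, 1), (0, 3), (1, 2), (2, 4), (3, 5), (4, 6), (5, 6), (7, 8), (7, 9), (8, 9)]⟩,
  ⟨9, [(0, 1), (0, 2), (1, 2), (1, 3), (2, 4), (3, 8), (4, 5), (5, 6), (6, 7), (7, 8)]⟩,
  ⟨9, [(0, 1), (0, 2), (1, 3), (2, 3), (4, 5), (4, 6), (4, 8), (5, 7), (6, 7), (7, 8)]⟩,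
  ⟨9, [(0, 1), (0, 2), (1, 3), (2, 3), (4, 5), (4, 6), (5, 6), (5, 7), (6, 8), (7, 8)]⟩,
  ⟨10, [(0, 1), (0, 2), (1, 3), (2, 4), (3, 4), (5, 6), (5, 7), (6, 8), (7, 9), (8, 9)]⟩,
  ⟨9, [(0, 1), (0, 2), (1, 3), (2, 5), (3, 4), (4, 5), (5, 6), (6, 7), (6, 8), (7, 8)]⟩,
  ⟨7, [(0, 1), (0, 4), (1, 2), (1, 3), (1, 6), (2, 3), (2, 5), (3, 4), (4, 5), (5, 6)]⟩,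
  ⟨9, [(0, 1), (0, 5), (1, 2), (2, 3), (2, 6), (3, 4), (4, 5), (5, 7), (6, 8), (7, 8)]⟩,
  ⟨9, [(0, 1), (0, 5), (1, 2), (2, 3), (3, 4), (4, 5), (4, 7), (5, 6), (6, 8), (7, 8)]⟩,
  ⟨7, [(0, 1), (0, 2), (0, 3), (1, 2), (1, 6), (2, 4), (3, 4), (3, 5), (3, 6), (4, 5)]⟩,
  ⟨10, [(0, 1), (0, 3), (1, 2), (2, 5), (3, 4), (4, 5), (6, 7), (6, 8), (7, 9), (8, 9)]⟩,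
  ⟨9, [(0, 1), (0, 3), (0, 7), (1, 2), (1, 8), (2, 5), (3, 4), (4, 6), (5, 6), (7, 8)]⟩,
  ⟨9, [(0, 1), (0, 2), (0, 7), (1, 5), (2, 3), (3, 4), (3, 6), (4, 5), (6, 8), (7, 8)]⟩]

def goods5 : List CG := [
  ⟨9, [(0, 1), (0, 3), (1, 2), (1, 5), (2, 3), (3, 4), (4, 7), (5, 6), (6, 8), (7, 8)]⟩,
  ⟨9, [(0, 1), (0, 2), (1, 5), (2, 3), (2, 4), (3, 8), (4, 5), (5, 6), (6, 7), (7, 8)]⟩,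
  ⟨9, [(0, 1), (0, 3), (0, 4), (1, 2), (2, 3), (4, 5), (5, 6), (6, 7), (6, 8), (7, 8)]⟩,
  ⟨9, [(0, 1), (0, 3), (1, 2), (2, 3), (2, 4), (4, 5), (5, 6), (5, 8), (6, 7), (7, 8)]⟩,
  ⟨9, [(0, 1), (0, 4), (1, 2), (2, 3), (3, 4), (5, 6), (5, 7), (6, 7), (6, 8), (7, 8)]⟩,
  ⟨9, [(0, 1), (0, 2), (1, 4), (2, 3), (3, 4), (4, 5), (5, 6), (6, 7), (6, 8), (7, 8)]⟩,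
  ⟨7, [(0, 1), (0, 2), (0, 5), (1, 2), (2, 3), (2, 4), (3, 4), (4, 5), (4, 6), (5, 6)]⟩,
  ⟨7, [(0, 1), (0, 3), (0, 4), (1, 2), (1, 5), (2, 3), (2, 4), (2, 5), (2, 6), (5, 6)]⟩,
  ⟨7, [(0, 1), (0, 5), (1, 2), (1, 3), (1, 6), (2, 3), (2, 4), (3, 4), (4, 5), (4, 6)]⟩,
  ⟨7, [(0, 1), (0, 3), (1, 2), (1, 4), (2, 3), (2, 4), (3, 5), (3, 6), (4, 5), (4, 6)]⟩,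
  ⟨9, [(0, 1), (0, 2), (0, 4), (1, 2), (1, 3), (3, 5), (4, 5), (6, 7), (6, 8), (7, 8)]⟩,
  ⟨9, [(0, 1), (0, 3), (1, 2), (2, 3), (2, 4), (3, 5), (4, 5), (6, 7), (6, 8), (7, 8)]⟩,
  ⟨7, [(0, 1), (0, 3), (0, 6), (1, 2), (1, 4), (2, 3), (2, 5), (3, 4), (4, 5), (5, 6)]⟩,
  ⟨7, [(0, 1), (0, 2), (0, 3), (1, 4), (1, 6), (2, 3), (3, 4), (3, 5), (3, 6), (4, 5)]⟩,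
  ⟨7, [(0, 1), (0, 2), (0, 3), (1, 2), (1, 5), (2, 4), (3, 4), (3, 6), (4, 5), (5, 6)]⟩,
  ⟨7, [(0, 1), (0, 2), (1, 2), (1, 4), (2, 3), (2, 5), (3, 4), (3, 6), (4, 5), (5, 6)]⟩,
  ⟨9, [(0, 1), (0, 2), (1, 5), (2, 3), (3, 4), (4, 6), (5, 6), (6, 7), (6, 8), (7, 8)]⟩,
  ⟨10, [(0, 1), (0, 2), (1, 3), (2, 4), (3, 5), (4, 6), (5, 7), (6, 8), (7, 9), (8, 9)]⟩,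
  ⟨9, [(0, 1), (0, 3), (1, 2), (1, 5), (2, 4), (3, 4), (4, 5), (6, 7), (6, 8), (7, 8)]⟩,
  ⟨7, [(0, 1), (0, 2), (0, 3), (1, 2), (1, 4), (1, 6), (3, 4), (3, 5), (3, 6), (4, 5)]⟩]

def goods6 : List CG := [
  ⟨7, [(0, 1), (0, 2), (0, 6), (1, 2), (1, 3), (2, 4), (3, 4), (3, 5), (4, 5), (5, 6)]⟩,
  ⟨7, [(0, 1), (0, 2), (0, 3), (1, 2), (1, 3), (2, 4), (2, 6), (3, 4), (4, 5), (5, 6)]⟩,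
  ⟨7, [(0, 1), (0, 3), (0, 4), (0, 6), (1, 2), (2, 3), (2, 5), (3, 4), (4, 5), (4, 6)]⟩,
  ⟨8, [(0, 1), (0, 2), (0, 7), (1, 2), (1, 7), (2, 3), (3, 4), (3, 5), (4, 5), (4, 6), (5, 6)]⟩,
  ⟨8, [(0, 1), (0, 2), (0, 3), (1, 2), (1, 3), (3, 4), (3, 5), (3, 6), (3, 7), (4, 5), (6, 7)]⟩,
  ⟨9, [(0, 1), (0, 4), (0, 6), (1, 2), (1, 3), (1, 5), (2, 3), (4, 5), (6, 7), (6, 8), (7, 8)]⟩,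
  ⟨11, [(0, 1), (0, 2), (1, 3), (2, 4), (3, 5), (4, 6), (5, 7), (6, 8), (7, 9), (8, 10), (9, 10)]⟩,
  ⟨10, [(0, 1), (0, 3), (1, 2), (1, 4), (2, 3), (4, 5), (5, 6), (6, 7), (7, 8), (7, 9), (8, 9)]⟩,
  ⟨10, [(0, 1), (0, 2), (0, 3), (1, 2), (3, 4), (4, 5), (5, 6), (6, 7), (7, 8), (7, 9), (8, 9)]⟩,
  ⟨9, [(0, 1), (0, 2), (0, 6), (1, 5), (2, 3), (2, 4), (2, 7), (2, 8), (3, 4), (5, 6), (7, 8)]⟩,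
  ⟨9, [(0, 1), (0, 2), (1, 3), (2, 3), (2, 4), (2, 5), (2, 6), (4, 5), (6, 7), (6, 8), (7, 8)]⟩,
  ⟨9, [(0, 1), (0, 2), (1, 2), (1, 3), (3, 4), (3, 5), (3, 6), (4, 5), (6, 7), (6, 8), (7, 8)]⟩,
  ⟨8, [(0, 1), (0, 2), (0, 3), (0, 6), (1, 4), (1, 5), (1, 7), (2, 3), (2, 6), (4, 5), (4, 7)]⟩,
  ⟨9, [(0, 1), (0, 2), (0, 3), (0, 4), (1, 2), (3, 4), (4, 5), (5, 6), (6, 7), (6, 8), (7, 8)]⟩,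
  ⟨9, [(0, 1), (0, 4), (0, 5), (1, 2), (1, 3), (2, 3), (4, 5), (5, 6), (6, 7), (6, 8), (7, 8)]⟩,
  ⟨9, [(0, 1), (0, 2), (1, 3), (1, 4), (1, 5), (2, 3), (2, 4), (5, 6), (6, 7), (6, 8), (7, 8)]⟩,
  ⟨9, [(0, 1), (0, 3), (1, 2), (1, 4), (1, 5), (2, 3), (3, 6), (4, 5), (6, 7), (6, 8), (7, 8)]⟩,
  ⟨8, [(0, 1), (0, 2), (1, 2), (2, 3), (2, 4), (2, 5), (2, 6), (2, 7), (3, 4), (3, 5), (6, 7)]⟩,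
  ⟨8, [(0, 1), (0, 2), (0, 3), (1, 2), (1, 3), (1, 4), (2, 3), (4, 5), (4, 7), (5, 6), (6, 7)]⟩,
  ⟨9, [(0, 1), (0, 6), (1, 2), (1, 3), (1, 4), (1, 5), (2, 3), (4, 5), (6, 7), (6, 8), (7, 8)]⟩]

def goods7 : List CG := [
  ⟨7, [(0, 1), (0, 2), (0, 3), (0, 4), (1, 2), (1, 3), (2, 3), (2, 5), (4, 5), (4, 6), (5, 6)]⟩,
  ⟨10, [(0, 1), (0, 2), (0, 3), (1, 2), (3, 4), (4, 5), (4, 6), (5, 6), (7, 8), (7, 9), (8, 9)]⟩,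
  ⟨9, [(0, 1), (0, 2), (0, 3), (1, 2), (2, 3), (2, 4), (2, 5), (4, 5), (6, 7), (6, 8), (7, 8)]⟩,
  ⟨8, [(0, 1), (0, 2), (0, 3), (1, 2), (1, 3), (2, 3), (4, 5), (4, 6), (5, 6), (5, 7), (6, 7)]⟩,
  ⟨9, [(0, 1), (0, 2), (1, 2), (2, 3), (2, 4), (3, 4), (3, 5), (4, 5), (6, 7), (6, 8), (7, 8)]⟩,
  ⟨9, [(0, 1), (0, 3), (1, 2), (1, 4), (1, 5), (2, 3), (3, 4), (3, 5), (6, 7), (6, 8), (7, 8)]⟩,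
  ⟨7, [(0, 1), (0, 3), (0, 4), (0, 5), (0, 6), (1, 2), (2, 3), (2, 4), (2, 5), (2, 6), (4, 5)]⟩,
  ⟨7, [(0, 1), (0, 2), (0, 3), (0, 5), (1, 2), (1, 4), (1, 6), (2, 3), (2, 4), (3, 5), (4, 6)]⟩,
  ⟨9, [(0, 1), (0, 2), (0, 3), (1, 2), (2, 3), (4, 5), (4, 6), (5, 6), (5, 7), (5, 8), (7, 8)]⟩,
  ⟨7, [(0, 1), (0, 2), (0, 4), (1, 2), (1, 3), (1, 4), (1, 5), (1, 6), (2, 3), (2, 5), (2, 6)]⟩,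
  ⟨8, [(0, 1), (0, 2), (0, 4), (0, 5), (1, 3), (2, 3), (3, 4), (3, 5), (3, 6), (3, 7), (6, 7)]⟩,
  ⟨7, [(0, 1), (0, 2), (0, 3), (1, 2), (1, 3), (2, 3), (3, 4), (3, 5), (4, 5), (4, 6), (5, 6)]⟩,
  ⟨7, [(0, 1), (0, 2), (0, 3), (1, 2), (1, 3), (1, 4), (1, 5), (1, 6), (2, 3), (4, 5), (5, 6)]⟩,
  ⟨7, [(0, 1), (0, 2), (0, 3), (1, 2), (1, 4), (2, 3), (2, 4), (2, 5), (2, 6), (3, 5), (4, 6)]⟩,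
  ⟨8, [(0, 1), (0, 2), (0, 3), (1, 2), (1, 6), (2, 6), (3, 4), (3, 5), (3, 7), (4, 5), (5, 7)]⟩,
  ⟨7, [(0, 1), (0, 2), (1, 2), (1, 3), (1, 4), (1, 5), (2, 3), (3, 4), (4, 5), (4, 6), (5, 6)]⟩,
  ⟨7, [(0, 1), (0, 2), (0, 3), (0, 4), (0, 5), (1, 2), (1, 3), (2, 3), (2, 6), (4, 5), (5, 6)]⟩,
  ⟨6, [(0, 1), (0, 2), (0, 3), (0, 4), (1, 2), (1, 3), (1, 5), (2, 4), (2, 5), (3, 4), (3, 5), (4, 5)]⟩,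
  ⟨8, [(0, 1), (0, 2), (1, 2), (3, 4), (3, 5), (3, 6), (3, 7), (4, 5), (4, 6), (4, 7), (5, 6), (6, 7)]⟩,
  ⟨7, [(0, 1), (0, 2), (1, 2), (1, 3), (1, 4), (1, 5), (3, 4), (3, 5), (3, 6), (4, 5), (4, 6), (5, 6)]⟩]

def goods8 : List CG := [
  ⟨7, [(0, 1), (0, 2), (1, 2), (1, 3), (1, 4), (1, 5), (1, 6), (3, 4), (3, 5), (3, 6), (4, 5), (4, 6)]⟩]

/-- the good graphs -/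
def goods : List CG :=
  goods0 ++ goods1 ++ goods2 ++ goods3 ++ goods4 ++ goods5 ++ goods6 ++ goods7 ++ goods8

end Pool.Agent.KFV
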